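import Pool.Agent.Helper12.MA.StC

/-!
# Project MA, module GAA: the face for the deleted vertex of a cut
-/

set_option autoImplicit false

namespace Pool.Agent.Helper72.MA

open Pool.Agent.Helper12.MA
open Pool.Agent.Helper51.AJ (IsMinor Planar Apex ExMinor Con Tch con_union con_singleton)
open Pool.Agent.Helper12.NK (rst Kc add cnt Pcy IsFace Cof plus)

variable {V : Type}

/-! ### connected sets -/

private theorem con_mono {G H : SimpleGraph V} {S : Set V} (h : ∀ a ∈ S, ∀ b ∈ S, G.Adj a b → H.Adj a b)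
    (hG : Con G S) : Con H S := by
  have hle : G.induce S ≤ H.induce S := fun a b hab => h a.1 a.2 b.1 b.2 hab
  exact SimpleGraph.Connected.mono hle hG

private theorem con_edge {G : SimpleGraph V} {S : Set V} (h : Con G S) (T : Set V) {a b : V} (ha : a ∈ S)
    (hb : b ∈ S) (haT : a ∈ T) (hbT : b ∉ T) : ∃ x ∈ S, ∃ y ∈ S, x ∈ T ∧ y ∉ T ∧ G.Adj x y := by
  obtain ⟨w⟩ := h.preconnected ⟨a, ha⟩ ⟨b, hb⟩
  obtain ⟨d, _, h1, h2⟩ := w.exists_boundary_dart {x | x.1 ∈ T} haT hbT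
  exact ⟨d.fst.1, d.fst.2, d.snd.1, d.snd.2, h1, h2, d.adj⟩

private theorem con_walk {G : SimpleGraph V} {S A : Set V} {x : V} (hx : x ∈ A)
    (h : ∀ a ∈ A, ∀ b ∈ S, b ∉ A → G.Adj a b → a = x) : ∀ (s t : S), (G.induce S).Walk s t → t.1 = x →
    ∀ hs : s.1 ∈ A, (G.induce A).Reachable ⟨s.1, hs⟩ ⟨x, hx⟩ := by
  intro s t w
  induction w with
  | nil =>
    intro ht hs
    subst ht
    exact SimpleGraph.Reachable.refl _
  | @cons a b c hab w ih =>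
    intro ht hs
    by_cases hb : b.1 ∈ A
    · have h1 : (G.induce A).Adj ⟨a.1, hs⟩ ⟨b.1, hb⟩ := hab
      exact h1.reachable.trans (ih ht hb)
    · have h1 := h a.1 hs b.1 b.2 hb hab
      subst h1
      exact SimpleGraph.Reachable.refl _

/-- a part of a connected set with only one outgoing end -/
private theorem con_part {G : SimpleGraph V} {S A : Set V} {x : V} (hS : Con G S) (hA : A ⊆ S) (hx : x ∈ A)
    (h : ∀ a ∈ A, ∀ b ∈ S, b ∉ A → G.Adj a b → a = x) : Con G A := by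
  have : Nonempty A := ⟨⟨x, hx⟩⟩
  have h1 : ∀ a : A, (G.induce A).Reachable a ⟨x, hx⟩ := by
    intro a
    obtain ⟨w⟩ := hS.preconnected ⟨a.1, hA a.2⟩ ⟨x, hA hx⟩
    exact con_walk hx h _ _ w rfl a.2
  exact ⟨fun a b => (h1 a).trans (h1 b).symm⟩

private theorem con_path {G : SimpleGraph V} (g : ℕ → V) : ∀ j : ℕ, (∀ i < j, G.Adj (g i) (g (i + 1))) →
    Con G {x | ∃ i, i ≤ j ∧ x = g i} := by
  intro j
  induction j with
  | zero =>
    intro _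
    have h : {x | ∃ i, i ≤ 0 ∧ x = g i} = {g 0} := by
      ext x
      constructor
      · rintro ⟨i, hi, rfl⟩
        rw [Nat.le_zero.1 hi]
        rfl
      · intro hx
        exact ⟨0, le_refl _, hx⟩
    rw [h]
    exact con_singleton G _
  | succ j ih =>
    intro h
    have h1 := ih fun i hi => h i (by omega)
    have h2 : {x | ∃ i, i ≤ j + 1 ∧ x = g i} = {x | ∃ i, i ≤ j ∧ x = g i} ∪ {g (j + 1)} := by
      ext x
      constructor
      · rintro ⟨i, hi, rfl⟩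
        rcases Nat.lt_or_ge i (j + 1) with h3 | h3
        · exact Or.inl ⟨i, by omega, rfl⟩
        · right
          have : i = j + 1 := by omega
          rw [this]
          rfl
      · rintro (⟨i, hi, rfl⟩ | hx)
        · exact ⟨i, by omega, rfl⟩
        · exact ⟨j + 1, le_refl _, hx⟩
    rw [h2]
    exact con_union h1 (con_singleton G _) ⟨g j, ⟨j, le_refl _, rfl⟩, g (j + 1), rfl, h j (by omega)⟩

/-- a connected subset of an induced path containing `g j` and `g k` contains everything between -/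
private theorem path_mem {G : SimpleGraph V} {S : Set V} {g : ℕ → V} {j k : ℕ} (hS : Con G S)
    (hsub : ∀ x ∈ S, ∃ i, i ≤ k ∧ x = g i) (hinj : ∀ i i', i ≤ k → i' ≤ k → g i = g i' → i = i')
    (hadj : ∀ i i', i ≤ k → i' ≤ k → G.Adj (g i) (g i') → (i' = i + 1 ∨ i = i' + 1))
    (hj : g j ∈ S) (hk : g k ∈ S) (m : ℕ) (hjm : j ≤ m) (hmk : m ≤ k) : g m ∈ S := by
  by_contra hm
  have h1 : j ≠ m := fun h => hm (h ▸ hj)
  have h2 : m ≠ k := fun h => hm (h ▸ hk)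
  obtain ⟨x, hx, y, hy, hxT, hyT, hxy⟩ := con_edge hS {x | ∃ i, i < m ∧ x = g i} hj hk
    ⟨j, by omega, rfl⟩ (by
      rintro ⟨i, hi, h⟩
      have := hinj k i (le_refl _) (by omega) h
      omega)
  obtain ⟨i, hi, rfl⟩ := hxT
  obtain ⟨i', hi', rfl⟩ := hsub y hy
  have h3 : m ≤ i' := by
    by_contra h
    exact hyT ⟨i', by omega, rfl⟩
  have h4 : m ≠ i' := fun h => hm (h ▸ hy)
  rcases hadj i i' (by omega) hi' hxy with h5 | h5 <;> omega

/-! ### the path -/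

private theorem path_rev {Γ : Set V} {G : SimpleGraph V} {z : V} {k : ℕ} {g : ℕ → V} (hk : 1 ≤ k)
    (h1 : Γ \ {z} = {x | ∃ j, j ≤ k ∧ x = g j})
    (h2 : ∀ i j, i ≤ k → j ≤ k → g i = g j → i = j)
    (h3 : ∀ i j, i ≤ k → j ≤ k → (G.Adj (g i) (g j) ↔ (j = i + 1 ∨ i = j + 1)))
    (h4 : ∀ i, i ≤ k → (G.Adj z (g i) ↔ (i = 0 ∨ i = k))) {r r' : V} (hrΓ : r ∈ Γ) (hsΓ : r' ∈ Γ) (hrz : G.Adj z r)
    (hsz : G.Adj z r') (hrs : r ≠ r') :
    ∃ g : ℕ → V, Γ \ {z} = {x | ∃ j, j ≤ k ∧ x = g j} ∧ (∀ i j, i ≤ k → j ≤ k → g i = g j → i = j) ∧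
      (∀ i j, i ≤ k → j ≤ k → (G.Adj (g i) (g j) ↔ (j = i + 1 ∨ i = j + 1))) ∧ g 0 = r' ∧ g k = r := by
  have hr : r ∈ Γ \ {z} := ⟨hrΓ, fun h => hrz.ne h.symm⟩
  have hs : r' ∈ Γ \ {z} := ⟨hsΓ, fun h => hsz.ne h.symm⟩
  rw [h1] at hr hs
  obtain ⟨i, hi, hri⟩ := hr
  obtain ⟨i', hi', hsi⟩ := hs
  have h5 := (h4 i hi).1 (hri ▸ hrz)
  have h6 := (h4 i' hi').1 (hsi ▸ hsz)
  have h7 : i ≠ i' := by
    rintro rfl
    exact hrs (hri.trans hsi.symm)
  rcases h6 with h6 | h6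
  · have h8 : i = k := by omega
    subst h8
    subst h6
    exact ⟨g, h1, h2, h3, hsi.symm, hri.symm⟩
  · have h8 : i = 0 := by omega
    refine ⟨fun n => g (k - n), ?_, ?_, ?_, ?_, ?_⟩
    · rw [h1]
      ext x
      constructor
      · rintro ⟨j, hj, rfl⟩
        refine ⟨k - j, by omega, ?_⟩
        change g j = g (k - (k - j))
        congr 1
        omega
      · rintro ⟨j, hj, rfl⟩
        exact ⟨k - j, by omega, rfl⟩
    · intro a b ha hb hab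
      have := h2 (k - a) (k - b) (by omega) (by omega) hab
      omega
    · intro a b ha hb
      change G.Adj (g (k - a)) (g (k - b)) ↔ _
      rw [h3 (k - a) (k - b) (by omega) (by omega)]
      omega
    · change g (k - 0) = r'
      rw [Nat.sub_zero, ← h6]
      exact hsi.symm
    · change g (k - k) = r
      rw [Nat.sub_self, ← h8]
      exact hri.symm

/-- a path from `X` to `Y` passes `σ` exactly once and stays on the sides -/
private theorem path_cut {G : SimpleGraph V} {X Y : Set V} {p q σ : V} {k : ℕ} {g : ℕ → V}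
    (hdis : Disjoint X Y) (honly : ∀ a ∈ X, ∀ b ∈ Y, G.Adj a b → a = p ∧ b = q)
    (hcov : ∀ i, i ≤ k → g i = σ ∨ g i ∈ X ∨ g i ∈ Y) (hp : ∀ i, i ≤ k → g i ≠ p)
    (hinj : ∀ i j, i ≤ k → j ≤ k → g i = g j → i = j)
    (hadj : ∀ i, i < k → G.Adj (g i) (g (i + 1))) (h0 : g 0 ∈ X) (hk : g k ∈ Y) (hσY : σ ∉ Y) :
    ∃ j, j < k ∧ g j = σ ∧ (∀ i, i < j → g i ∈ X) ∧ (∀ i, j < i → i ≤ k → g i ∈ Y) := by
  classical
  have hXY : ∀ x, x ∈ X → x ∉ Y := fun x hx hy => Set.disjoint_left.1 hdis hx hy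
  -- the first index outside `X`
  have hex : ∃ j, g j ∉ X := ⟨k, fun h => hXY _ h hk⟩
  obtain ⟨j, hjX, hjm⟩ : ∃ j, g j ∉ X ∧ ∀ i, i < j → g i ∈ X :=
    ⟨Nat.find hex, Nat.find_spec hex, fun i hi => not_not.1 (Nat.find_min hex hi)⟩
  have hj0 : j ≠ 0 := by
    rintro rfl
    exact hjX h0
  have hjk : j ≤ k := by
    by_contra h
    exact hXY _ (hjm k (by omega)) hk
  have hjσ : g j = σ := by
    rcases hcov j hjk with h | h | h
    · exact h
    · exact absurd h hjX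
    · obtain ⟨i, rfl⟩ : ∃ i, j = i + 1 := ⟨j - 1, by omega⟩
      exact absurd (honly _ (hjm i (by omega)) _ h (hadj i (by omega))).1 (hp i (by omega))
  have hjk' : j ≠ k := by
    rintro rfl
    exact hσY (hjσ ▸ hk)
  refine ⟨j, by omega, hjσ, hjm, ?_⟩
  -- going down from `k`
  have hdown : ∀ n, n + j < k → g (k - n) ∈ Y := by
    intro n
    induction n with
    | zero => intro _; rwa [Nat.sub_zero]
    | succ n ih =>
      intro hn
      have h1 := ih (by omega)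
      rcases hcov (k - (n + 1)) (by omega) with h | h | h
      · exact absurd (hinj _ _ (by omega) hjk (h.trans hjσ.symm)) (by omega)
      · have h2 := hadj (k - (n + 1)) (by omega)
        have h3 : k - (n + 1) + 1 = k - n := by omega
        rw [h3] at h2
        exact absurd (honly _ h _ h1 h2).1 (hp _ (by omega))
      · exact h
  intro i hi hik
  have := hdown (k - i) (by omega)
  rwa [Nat.sub_sub_self hik] at this

theorem hGAA : StFAX → StFAY → StPCL → StRIM → StCUA → StGAA := by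
  intro hFAX hFAY hPCL hRIM hCUA V _ G z v p q r r' f1 f2 f3 f4 hc σ b X Y Γ hcut hng
  have hsep := hcut.sep
  -- membership
  have hout : ∀ x, x ∈ X ∪ Y ↔ x ≠ v ∧ x ≠ z ∧ x ≠ σ ∧ x ≠ b := by
    intro x
    rw [hsep.cov]
    simp only [Set.mem_compl_iff, Set.mem_insert_iff, Set.mem_singleton_iff, not_or]
  have hXo : ∀ x ∈ X, x ≠ v ∧ x ≠ z ∧ x ≠ σ ∧ x ≠ b := fun x hx => (hout x).1 (Or.inl hx)
  have hYo : ∀ x ∈ Y, x ≠ v ∧ x ≠ z ∧ x ≠ σ ∧ x ≠ b := fun x hx => (hout x).1 (Or.inr hx)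
  have hXY : ∀ x, x ∈ X → x ∉ Y := fun x hx hy => Set.disjoint_left.1 hsep.dis hx hy
  have hpX := hsep.xL
  have hqY := hsep.yR
  have hqX : q ∉ X := fun h => hXY q h hqY
  have hpY : p ∉ Y := hXY p hpX
  have hσX : σ ∉ X := fun h => (hXo σ h).2.2.1 rfl
  have hσY : σ ∉ Y := fun h => (hYo σ h).2.2.1 rfl
  have hσp : σ ≠ p := fun h => hσX (h ▸ hpX)
  have hσq : σ ≠ q := fun h => hσY (h ▸ hqY)
  have hzX : z ∉ X := fun h => (hXo z h).2.1 rfl
  have hzY : z ∉ Y := fun h => (hYo z h).2.1 rfl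
  have hvX : v ∉ X := fun h => (hXo v h).1 rfl
  have hvY : v ∉ Y := fun h => (hYo v h).1 rfl
  obtain ⟨hΓU, -, hΓc, -, hΓp, -⟩ := hFAX V G {b, v}ᶜ Γ hng.fa
  have hΓo : ∀ x ∈ Γ, x ≠ b ∧ x ≠ v := by
    intro x hx
    have := hΓU hx
    simpa only [Set.mem_compl_iff, Set.mem_insert_iff, Set.mem_singleton_iff, not_or] using this
  have hdl : ∀ a c, a ≠ p → a ≠ q → G.Adj a c → (dl G p q).Adj a c := fun a c h1 h2 h =>
    ⟨h, fun h' => h1 h'.1, fun h' => h2 h'.1⟩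
  have hΓp' : ∀ x ∈ Γ, x ≠ p ∧ x ≠ q := fun x hx => ⟨fun h => hng.p (h ▸ hx), fun h => hng.q (h ▸ hx)⟩
  -- the path
  obtain ⟨k, g₀, hk1, e1, e2, e3, e4⟩ := hΓp z hng.z
  obtain ⟨-, -, -, -, -, -, -, -, -, hrr⟩ := hc.ds.ne
  obtain ⟨g, g1, g2, g3, g4, g5⟩ := path_rev hk1 e1 e2 e3 e4 hng.r hng.s
    ((hc.ds.nb r).2 (by tauto)) ((hc.ds.nb r').2 (by tauto)) hrr
  have hgΓ : ∀ i, i ≤ k → g i ∈ Γ ∧ g i ≠ z := by
    intro i hi
    have : g i ∈ Γ \ {z} := by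
      rw [g1]
      exact ⟨i, hi, rfl⟩
    exact ⟨this.1, this.2⟩
  have hgcov : ∀ i, i ≤ k → g i = σ ∨ g i ∈ X ∨ g i ∈ Y := by
    intro i hi
    by_cases h : g i = σ
    · exact Or.inl h
    · right
      obtain ⟨h1, h2⟩ := hgΓ i hi
      exact (hout _).2 ⟨(hΓo _ h1).2, h2, h, (hΓo _ h1).1⟩
  obtain ⟨j, hjk, hjσ, hjX, hjY⟩ := path_cut hsep.dis hsep.only hgcov
    (fun i hi => (hΓp' _ (hgΓ i hi).1).1) g2 (fun i hi => (g3 i (i + 1) (by omega) (by omega)).2 (Or.inl rfl))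
    (g4 ▸ hcut.sX) (g5 ▸ hcut.rY) hσY
  have hσΓ : σ ∈ Γ := hjσ ▸ (hgΓ j (by omega)).1
  -- the rest
  have hRc : ∀ x, x ∈ ({b, v}ᶜ : Set V) \ Γ ↔ (x ∈ X ∨ x ∈ Y) ∧ x ∉ Γ := by
    intro x
    constructor
    · rintro ⟨h1, h2⟩
      have h1' : x ≠ b ∧ x ≠ v := by
        simpa only [Set.mem_compl_iff, Set.mem_insert_iff, Set.mem_singleton_iff, not_or] using h1
      exact ⟨(hout x).2 ⟨h1'.2, fun h => h2 (h ▸ hng.z), fun h => h2 (h ▸ hσΓ), h1'.1⟩, h2⟩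
    · rintro ⟨h1, h2⟩
      have h3 := (hout x).1 h1
      refine ⟨?_, h2⟩
      simpa only [Set.mem_compl_iff, Set.mem_insert_iff, Set.mem_singleton_iff, not_or] using ⟨h3.2.2.2, h3.1⟩
  have hX1 : Con G (X \ Γ) := by
    refine con_part (x := p) hΓc ?_ ⟨hpX, hng.p⟩ ?_
    · intro x hx
      exact (hRc x).2 ⟨Or.inl hx.1, hx.2⟩
    · intro a ha c hcR hcX hac
      obtain ⟨h1, h2⟩ := (hRc c).1 hcR
      rcases h1 with h1 | h1
      · exact absurd ⟨h1, h2⟩ hcX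
      · exact (hsep.only a ha.1 c h1 hac).1
  have hY1 : Con G (Y \ Γ) := by
    refine con_part (x := q) hΓc ?_ ⟨hqY, hng.q⟩ ?_
    · intro x hx
      exact (hRc x).2 ⟨Or.inr hx.1, hx.2⟩
    · intro a ha c hcR hcY hac
      obtain ⟨h1, h2⟩ := (hRc c).1 hcR
      rcases h1 with h1 | h1
      · exact (hsep.only c h1 a ha.1 hac.symm).2
      · exact absurd ⟨h1, h2⟩ hcY
  have hX2 : Con (dl G p q) (X \ Γ) := con_mono (fun a ha c hc' h =>
    ⟨h, fun h' => hqX (h'.2 ▸ hc'.1), fun h' => hqX (h'.1 ▸ ha.1)⟩) hX1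
  have hY2 : Con (dl G p q) (Y \ Γ) := con_mono (fun a ha c hc' h =>
    ⟨h, fun h' => hpY (h'.1 ▸ ha.1), fun h' => hpY (h'.2 ▸ hc'.1)⟩) hY1
  have hK : Con (dl G p q) (Γ \ {z}) := con_mono (fun a ha c _ h =>
    hdl a c (hΓp' a ha.1).1 (hΓp' a ha.1).2 h) ((hFAY V G {b, v}ᶜ Γ hng.fa z hng.z).1)
  obtain ⟨pc1, pc2, pc3, -⟩ := hPCL V (dl G p q) {v}ᶜ
  have hKP : PC (dl G p q) {v}ᶜ (Γ \ {z}) ∅ := pc1 _ (fun x hx => (hΓo x hx.1).2) hK
  have hrK : r ∈ Γ \ {z} := by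
    rw [g1]
    exact ⟨k, le_refl _, g5.symm⟩
  have hsK : r' ∈ Γ \ {z} := by
    rw [g1]
    exact ⟨0, Nat.zero_le _, g4.symm⟩
  -- (3)
  have h3 : f3 ∩ X ⊆ Γ := by
    rintro t ⟨ht3, htX⟩
    by_contra htΓ
    have hL : PC (dl G p q) {v}ᶜ ((X \ Γ) ∪ ∅) (∅ ∪ {f3}) :=
      pc3 _ _ _ _ (pc1 _ (fun x hx => (hXo x hx.1).1) hX2) (pc2 f3 hc.i3)
        (Or.inr (Or.inl ⟨t, ⟨htX, htΓ⟩, f3, rfl, hc.i3, ht3⟩))
    rw [Set.union_empty, Set.empty_union] at hL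
    refine hRIM V G z v p q r r' f1 f2 f3 f4 hc _ _ _ _ hL hKP ?_ ?_ ?_ ?_ 0 2 5 6 (by decide) (by decide)
      (by decide) ?_ ?_ ?_ ?_
    · rw [Set.disjoint_left]
      rintro x ⟨_, hx⟩ ⟨hx', _⟩
      exact hx hx'
    · exact Set.disjoint_empty _
    · exact fun h => hzX h.1
    · exact fun h => h.2 rfl
    · exact Or.inl ⟨rfl, hpX, hng.p⟩
    · exact Or.inr (Or.inr (Or.inl ⟨rfl, hrK⟩))
    · exact Or.inr (Or.inr (Or.inr (Or.inr (Or.inr (Or.inl ⟨rfl, rfl⟩)))))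
    · exact Or.inr (Or.inr (Or.inr (Or.inr (Or.inr (Or.inr (Or.inl ⟨rfl, hsK⟩))))))
  -- (2)
  have h2 : f1 ∩ Y ⊆ Γ := by
    rintro t ⟨ht1, htY⟩
    by_contra htΓ
    have hL : PC (dl G p q) {v}ᶜ ((Y \ Γ) ∪ ∅) (∅ ∪ {f1}) :=
      pc3 _ _ _ _ (pc1 _ (fun x hx => (hYo x hx.1).1) hY2) (pc2 f1 hc.i1)
        (Or.inr (Or.inl ⟨t, ⟨htY, htΓ⟩, f1, rfl, hc.i1, ht1⟩))
    rw [Set.union_empty, Set.empty_union] at hL
    refine hRIM V G z v p q r r' f1 f2 f3 f4 hc _ _ _ _ hL hKP ?_ ?_ ?_ ?_ 1 2 4 6 (by decide) (by decide)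
      (by decide) ?_ ?_ ?_ ?_
    · rw [Set.disjoint_left]
      rintro x ⟨_, hx⟩ ⟨hx', _⟩
      exact hx hx'
    · exact Set.disjoint_empty _
    · exact fun h => hzY h.1
    · exact fun h => h.2 rfl
    · exact Or.inr (Or.inl ⟨rfl, rfl⟩)
    · exact Or.inr (Or.inr (Or.inl ⟨rfl, hrK⟩))
    · exact Or.inr (Or.inr (Or.inr (Or.inr (Or.inl ⟨rfl, hqY, hng.q⟩))))
    · exact Or.inr (Or.inr (Or.inr (Or.inr (Or.inr (Or.inr (Or.inl ⟨rfl, hsK⟩))))))
  obtain ⟨-, -, ⟨-, -, hY3, -, ⟨a, ha, hσa⟩, -⟩, -, -⟩ := hCUA V G z v p q r r' f1 f2 f3 f4 hc σ b X Y hcut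
  have hS : Con (dl G p q) ({σ} ∪ (f1 ∩ Y)) :=
    con_union (con_singleton _ _) hY3 ⟨σ, rfl, a, ha, hdl σ a hσp hσq hσa⟩
  have h2' : Γ ∩ Y ⊆ f1 ∩ Y := by
    rintro x ⟨hxΓ, hxY⟩
    have hx : x ∈ Γ \ {z} := ⟨hxΓ, fun h => hzY (h ▸ hxY)⟩
    rw [g1] at hx
    obtain ⟨i, hi, rfl⟩ := hx
    have hij : j < i := by
      rcases Nat.lt_trichotomy i j with h | h | h
      · exact absurd hxY (hXY _ (hjX i h))
      · exact absurd (h ▸ hxY) (by rw [hjσ]; exact hσY)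
      · exact h
    have := path_mem (g := g) (j := j) (k := k) hS (by
        rintro x (hx | hx)
        · exact ⟨j, by omega, (Set.mem_singleton_iff.1 hx).trans hjσ.symm⟩
        · have : x ∈ Γ \ {z} := ⟨h2 hx, fun h => hzY (h ▸ hx.2)⟩
          rw [g1] at this
          exact this) g2 (fun i i' hi hi' h => (g3 i i' hi hi').1 h.1) (Or.inl hjσ)
        (Or.inr (by rw [g5]; exact ⟨hc.r1, hcut.rY⟩)) i hij.le hi
    rcases this with h | h
    · exact absurd (Set.mem_singleton_iff.1 h ▸ hxY) hσY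
    · exact h
  refine ⟨hσΓ, Set.Subset.antisymm h2' fun x hx => ⟨h2 hx, hx.2⟩, h3, ⟨hX2, hpX, hng.p⟩, ?_, ?_⟩
  · have h5 : (Γ ∩ X) ∪ {σ} = {x | ∃ i, i ≤ j ∧ x = g i} := by
      ext x
      constructor
      · rintro (⟨hxΓ, hxX⟩ | hx)
        · have hx : x ∈ Γ \ {z} := ⟨hxΓ, fun h => hzX (h ▸ hxX)⟩
          rw [g1] at hx
          obtain ⟨i, hi, rfl⟩ := hx
          refine ⟨i, ?_, rfl⟩
          by_contra h
          exact hXY _ hxX (hjY i (by omega) hi)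
        · exact ⟨j, le_refl _, (Set.mem_singleton_iff.1 hx).trans hjσ.symm⟩
      · rintro ⟨i, hi, rfl⟩
        rcases Nat.lt_or_ge i j with h | h
        · exact Or.inl ⟨(hgΓ i (by omega)).1, hjX i h⟩
        · right
          have : i = j := by omega
          rw [this]
          exact hjσ
    rw [h5]
    refine con_path g j fun i hi => ?_
    have h6 := hgΓ i (by omega)
    exact hdl _ _ (hΓp' _ h6.1).1 (hΓp' _ h6.1).2 ((g3 i (i + 1) (by omega) (by omega)).2 (Or.inl rfl))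
  · refine ⟨k, j, g, hjk, g4, g5, hjσ, g2, ?_, g3, hjX, hjY⟩
    rw [← g1]
    ext x
    constructor
    · intro hx
      by_cases h : x = z
      · exact Or.inl h
      · exact Or.inr ⟨hx, h⟩
    · rintro (rfl | hx)
      · exact hng.z
      · exact hx.1

end Pool.Agent.Helper72.MA
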